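import Pool.Agent.TH120.HM.M
import Pool.Agent.H297R2.LPM.Main

/-!
# Consequences of the measure for `1, ζ(2), ζ(3)` with exponent `227`
-/

set_option autoImplicit false

open Pool.Agent.H337R2

namespace Pool.Agent.TH120.HM

noncomputable section

/-- linear forms in `1, ζ(2)` -/
theorem z2_lin : ∃ c : ℝ, 0 < c ∧ ∀ a b : ℤ, ∀ H : ℝ, 1 ≤ H → b ≠ 0 → |(b : ℝ)| ≤ H →
    c * H ^ (-227 : ℝ) ≤ |(a : ℝ) + b * zr 2| := by
  obtain ⟨c, hc, h⟩ := Pool.Agent.LP.MS.measure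
  refine ⟨c / 6, by positivity, fun a b H hH hb hbH => ?_⟩
  have hH0 : 0 < H := by linarith
  have hb1 : (0 : ℝ) < |(b : ℝ)| := by
    have : (b : ℝ) ≠ 0 := by exact_mod_cast hb
    positivity
  have h1 := h (6 * a) 0 b (Or.inr hb)
  rw [Int.cast_zero, zero_mul, add_zero, abs_zero, max_eq_right hb1.le] at h1
  have e1 : ((6 * a : ℤ) : ℝ) + b * Real.pi ^ 2 = 6 * ((a : ℝ) + b * zr 2) := by
    rw [Pool.Agent.LZ.Z2_value]
    push_cast
    ring
  rw [e1, abs_mul, abs_of_pos (by norm_num : (0 : ℝ) < 6)] at h1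
  have h2 : c * H ^ (-227 : ℝ) ≤ c / |(b : ℝ)| ^ 223 := by
    have h3 : H ^ (-227 : ℝ) ≤ H ^ (-223 : ℝ) := Real.rpow_le_rpow_of_exponent_le hH (by norm_num)
    have h4 : H ^ (-223 : ℝ) = (H ^ 223)⁻¹ := by
      rw [Real.rpow_neg hH0.le, show (223 : ℝ) = ((223 : ℕ) : ℝ) by norm_num, Real.rpow_natCast]
    rw [div_eq_mul_inv]
    apply mul_le_mul_of_nonneg_left _ hc.le
    rw [h4] at h3
    refine h3.trans ?_
    apply inv_anti₀ (by positivity)
    exact pow_le_pow_left₀ hb1.le hbH _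
  linarith

/-- all nonzero integer vectors -/
theorem measure_all : ∃ c : ℝ, 0 < c ∧ ∀ a b d : ℤ, ∀ H : ℝ, 1 ≤ H → ¬ (a = 0 ∧ b = 0 ∧ d = 0) →
    |(b : ℝ)| ≤ H → |(d : ℝ)| ≤ H → c * H ^ (-227 : ℝ) ≤ |(a : ℝ) + b * zr 2 + d * zr 3| := by
  obtain ⟨c1, hc1, h1⟩ := measure_d3
  obtain ⟨c2, hc2, h2⟩ := z2_lin
  refine ⟨min 1 (min c1 c2), by positivity, fun a b d H hH h0 hb hd => ?_⟩
  have hP : 0 < H ^ (-227 : ℝ) := by positivity
  by_cases hd0 : d = 0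
  · subst hd0
    rw [Int.cast_zero, zero_mul, add_zero]
    by_cases hb0 : b = 0
    · subst hb0
      rw [Int.cast_zero, zero_mul, add_zero]
      have ha : a ≠ 0 := fun ha => h0 ⟨ha, rfl, rfl⟩
      have ha1 : (1 : ℝ) ≤ |(a : ℝ)| := by exact_mod_cast Int.one_le_abs ha
      have h3 : H ^ (-227 : ℝ) ≤ 1 := Real.rpow_le_one_of_one_le_of_nonpos hH (by norm_num)
      have h4 : min 1 (min c1 c2) * H ^ (-227 : ℝ) ≤ 1 * 1 :=
        mul_le_mul (min_le_left _ _) h3 hP.le zero_le_one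
      linarith
    · refine le_trans ?_ (h2 a b H hH hb0 hb)
      exact mul_le_mul_of_nonneg_right ((min_le_right _ _).trans (min_le_right _ _)) hP.le
  · refine le_trans ?_ (h1 a b d H hH hd0 hb hd)
    exact mul_le_mul_of_nonneg_right ((min_le_right _ _).trans (min_le_left _ _)) hP.le

/-- the measure in terms of `π ^ 2` -/
theorem base : ∃ c : ℝ, 0 < c ∧ ∀ a b d : ℤ, ∀ H : ℝ, 1 ≤ H → d ≠ 0 →
    |(b : ℝ)| ≤ H → |(d : ℝ)| ≤ H →
    c * H ^ (-227 : ℝ) ≤ |(a : ℝ) + b * Real.pi ^ 2 + d * (∑' n : ℕ, 1 / ((n : ℝ) + 1) ^ 3)| := by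
  obtain ⟨c, hc, h⟩ := measure_d3
  refine ⟨c * 6 ^ (-227 : ℝ), by positivity, ?_⟩
  intro a b d H hH hd hb hdH
  have h1 := h a (6 * b) d (6 * H) (by linarith) hd (by
    push_cast
    rw [abs_mul, abs_of_pos (by norm_num : (0 : ℝ) < 6)]
    linarith) (by linarith)
  have e2 : Pool.Agent.H337R2.zr 2 = Real.pi ^ 2 / 6 := Pool.Agent.LZ.Z2_value
  have e3 : Pool.Agent.H337R2.zr 3 = ∑' n : ℕ, 1 / ((n : ℝ) + 1) ^ 3 := rfl
  rw [e2, e3] at h1
  rw [Real.mul_rpow (by norm_num) (by linarith)] at h1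
  have e4 : (a : ℝ) + ((6 * b : ℤ) : ℝ) * (Real.pi ^ 2 / 6) + d * (∑' n : ℕ, 1 / ((n : ℝ) + 1) ^ 3) =
      (a : ℝ) + b * Real.pi ^ 2 + d * (∑' n : ℕ, 1 / ((n : ℝ) + 1) ^ 3) := by
    push_cast
    ring
  rw [e4] at h1
  linarith

theorem shifts : ∀ s : ℚ, ∃ c : ℝ, 0 < c ∧ ∀ p q : ℤ, 0 < q →
      c * (q : ℝ) ^ (-(227 + 1) : ℝ) ≤ |(∑' n : ℕ, 1 / ((n : ℝ) + 1) ^ 3) + s * Real.pi ^ 2 - p / q| := by
  obtain ⟨c, hc, h⟩ := base
  set κ : ℝ := 227 with hκdef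
  have hκ : 0 < κ := by norm_num [hκdef]
  set z : ℝ := ∑' n : ℕ, 1 / ((n : ℝ) + 1) ^ 3 with hz
  have hpi : (0 : ℝ) < Real.pi ^ 2 := by positivity
  intro s
  set K : ℝ := max (s.den : ℝ) |(s.num : ℝ)| with hK
  have hden : (0 : ℝ) < s.den := by exact_mod_cast s.pos
  have hden1 : (1 : ℝ) ≤ s.den := by exact_mod_cast s.pos
  have hK1 : 1 ≤ K := hden1.trans (le_max_left _ _)
  have hK0 : 0 < K := by linarith
  refine ⟨c * K ^ (-κ) / s.den, by positivity, ?_⟩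
  intro p q hq
  have hq0 : (0 : ℝ) < q := by exact_mod_cast hq
  have hq1 : (1 : ℝ) ≤ q := by exact_mod_cast (by omega : (1 : ℤ) ≤ q)
  have hdq : ((s.den : ℤ) * q) ≠ 0 := mul_ne_zero (by exact_mod_cast s.pos.ne') hq.ne'
  have h1 := h (-(s.den * p)) (s.num * q) (s.den * q) (K * q)
    (by nlinarith) hdq
    (by push_cast; rw [abs_mul, abs_of_pos hq0]
        exact mul_le_mul_of_nonneg_right (le_max_right _ _) hq0.le)
    (by push_cast; rw [abs_mul, abs_of_pos hden, abs_of_pos hq0]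
        exact mul_le_mul_of_nonneg_right (le_max_left _ _) hq0.le)
  have hsr : (s : ℝ) = s.num / s.den := by exact_mod_cast (Rat.num_div_den s).symm
  have e1 : z + s * Real.pi ^ 2 - p / q =
      (((-(s.den * p) : ℤ) : ℝ) + ((s.num * q : ℤ) : ℝ) * Real.pi ^ 2 +
        ((s.den * q : ℤ) : ℝ) * z) / (s.den * q) := by
    rw [hsr]
    push_cast
    field_simp
    ring
  rw [e1, abs_div, abs_of_pos (mul_pos hden hq0), le_div_iff₀ (mul_pos hden hq0)]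
  refine le_trans (le_of_eq ?_) h1
  rw [Real.mul_rpow hK0.le hq0.le, neg_add, Real.rpow_add hq0, Real.rpow_neg_one]
  field_simp

theorem quotients : ∀ r : ℚ, ∃ c : ℝ, 0 < c ∧ ∀ p q : ℤ, 0 < q →
      c * (q : ℝ) ^ (-(227 + 1) : ℝ) ≤ |((∑' n : ℕ, 1 / ((n : ℝ) + 1) ^ 3) + r) / Real.pi ^ 2 - p / q| := by
  obtain ⟨c, hc, h⟩ := base
  set κ : ℝ := 227 with hκdef
  have hκ : 0 < κ := by norm_num [hκdef]
  set z : ℝ := ∑' n : ℕ, 1 / ((n : ℝ) + 1) ^ 3 with hz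
  have hpi : (0 : ℝ) < Real.pi ^ 2 := by positivity
  intro r
  set X : ℝ := |(z + r) / Real.pi ^ 2| + 1 with hX
  have hX1 : 1 ≤ X := by
    have := abs_nonneg ((z + r) / Real.pi ^ 2)
    linarith
  have hX0 : 0 < X := by linarith
  have hden : (0 : ℝ) < r.den := by exact_mod_cast r.pos
  have hden1 : (1 : ℝ) ≤ r.den := by exact_mod_cast r.pos
  set K : ℝ := r.den * X with hK
  have hK1 : 1 ≤ K := by nlinarith
  have hK0 : 0 < K := by linarith
  refine ⟨min 1 (c * K ^ (-κ) / (r.den * Real.pi ^ 2)), by positivity, ?_⟩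
  intro p q hq
  have hq0 : (0 : ℝ) < q := by exact_mod_cast hq
  have hq1 : (1 : ℝ) ≤ q := by exact_mod_cast (by omega : (1 : ℤ) ≤ q)
  have hqk : (q : ℝ) ^ (-(κ + 1)) ≤ 1 :=
    Real.rpow_le_one_of_one_le_of_nonpos hq1 (by linarith)
  have hqk0 : 0 < (q : ℝ) ^ (-(κ + 1)) := Real.rpow_pos_of_pos hq0 _
  have hrr : (r : ℝ) = r.num / r.den := by exact_mod_cast (Rat.num_div_den r).symm
  by_cases hpq : |(p : ℝ)| ≤ X * q
  · have hdq : ((r.den : ℤ) * q) ≠ 0 := mul_ne_zero (by exact_mod_cast r.pos.ne') hq.ne'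
    have h1 := h (r.num * q) (-(r.den * p)) (r.den * q) (K * q)
      (by nlinarith) hdq
      (by push_cast; rw [abs_neg, abs_mul, abs_of_pos hden, hK, mul_assoc]
          exact mul_le_mul_of_nonneg_left hpq hden.le)
      (by push_cast; rw [abs_mul, abs_of_pos hden, abs_of_pos hq0, hK]
          have : (r.den : ℝ) * 1 ≤ r.den * X := mul_le_mul_of_nonneg_left hX1 hden.le
          nlinarith)
    have e1 : (z + r) / Real.pi ^ 2 - p / q =
        (((r.num * q : ℤ) : ℝ) + ((-(r.den * p) : ℤ) : ℝ) * Real.pi ^ 2 +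
          ((r.den * q : ℤ) : ℝ) * z) / (r.den * Real.pi ^ 2 * q) := by
      rw [hrr]
      push_cast
      field_simp
      ring
    have hD : 0 < (r.den : ℝ) * Real.pi ^ 2 * q := by positivity
    rw [e1, abs_div, abs_of_pos hD, le_div_iff₀ hD]
    refine le_trans ?_ h1
    have h2 : min 1 (c * K ^ (-κ) / (r.den * Real.pi ^ 2)) ≤ c * K ^ (-κ) / (r.den * Real.pi ^ 2) :=
      min_le_right _ _
    have h3 : min 1 (c * K ^ (-κ) / (r.den * Real.pi ^ 2)) * (q : ℝ) ^ (-(κ + 1)) *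
        (r.den * Real.pi ^ 2 * q) ≤ c * K ^ (-κ) / (r.den * Real.pi ^ 2) * (q : ℝ) ^ (-(κ + 1)) *
        (r.den * Real.pi ^ 2 * q) := by
      apply mul_le_mul_of_nonneg_right _ hD.le
      exact mul_le_mul_of_nonneg_right h2 hqk0.le
    refine h3.trans (le_of_eq ?_)
    rw [Real.mul_rpow hK0.le hq0.le, neg_add, Real.rpow_add hq0, Real.rpow_neg_one]
    field_simp
  · push Not at hpq
    have h2 : X < |(p : ℝ) / q| := by
      rw [abs_div, abs_of_pos hq0, lt_div_iff₀ hq0]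
      exact hpq
    have h3 : (1 : ℝ) ≤ |(z + r) / Real.pi ^ 2 - p / q| := by
      have h4 := abs_sub_abs_le_abs_sub ((p : ℝ) / q) ((z + r) / Real.pi ^ 2)
      rw [abs_sub_comm] at h4
      linarith
    have h5 : min 1 (c * K ^ (-κ) / (r.den * Real.pi ^ 2)) * (q : ℝ) ^ (-(κ + 1)) ≤ 1 * 1 :=
      mul_le_mul (min_le_left _ _) hqk hqk0.le zero_le_one
    linarith

end

end Pool.Agent.TH120.HM
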