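import Pool.Agent.TH120.HM.A
import Pool.Agent.TH120.ZE.Sel
import Pool.Agent.H103R2.LM.M

/-!
# A measure for `1, ζ(2), ζ(3)` with exponent `227`
-/

open Polynomial Pool.Agent.H337R2 Filter Topology Pool.Agent.LZ Pool.Agent.LM

namespace Pool.Agent.TH120.HM

noncomputable section

/-- **measure, `d ≠ 0`** -/
theorem measure_d3 : ∃ c : ℝ, 0 < c ∧ ∀ a b d : ℤ, ∀ H : ℝ, 1 ≤ H → d ≠ 0 →
    |(b : ℝ)| ≤ H → |(d : ℝ)| ≤ H → c * H ^ (-227 : ℝ) ≤ |(a : ℝ) + b * zr 2 + d * zr 3| := by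
  obtain ⟨p0, hp0⟩ := HU_nonvanish
  obtain ⟨NA, hNA⟩ := eventually_atTop.1 (AU2 (1 / 1000) (by norm_num))
  obtain ⟨NP, hNP⟩ := eventually_atTop.1 (PU_main (1 / 1000) (by norm_num))
  obtain ⟨M0, hM0⟩ := Pool.Agent.TH120.ZE.prime_sel (3184 / 1000) (4185 / 1000) (by norm_num) (by norm_num)
  set N1 : ℕ := NP + p0 + M0 + NA + 2 with hN1
  refine ⟨Real.exp (-(227 * (N1 + 1))), Real.exp_pos _, ?_⟩
  intro a b d H hH hd hb hdH
  by_contra hlt
  push Not at hlt
  have hH0 : 0 < H := by linarith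
  set L : ℝ := Real.log H with hL
  have hL0 : 0 ≤ L := Real.log_nonneg hH
  set M : ℕ := N1 + ⌈L⌉₊ with hM
  have hc1 : L ≤ (⌈L⌉₊ : ℝ) := Nat.le_ceil _
  have hc2 : (⌈L⌉₊ : ℝ) < L + 1 := Nat.ceil_lt_add_one hL0
  have hMr : (M : ℝ) = N1 + (⌈L⌉₊ : ℝ) := by rw [hM]; push_cast; ring
  have hN1r : (2 : ℝ) ≤ N1 := by
    have : 2 ≤ N1 := by omega
    exact_mod_cast this
  set q : ℕ := d.natAbs with hq
  have hq0 : q ≠ 0 := Int.natAbs_ne_zero.2 hd
  have hqr : (q : ℝ) = |(d : ℝ)| := by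
    rw [hq, Nat.cast_natAbs]; push_cast; rfl
  have hqpos : (0 : ℝ) < q := by exact_mod_cast Nat.pos_of_ne_zero hq0
  have hq1 : (1 : ℝ) ≤ q := by exact_mod_cast Nat.one_le_iff_ne_zero.2 hq0
  have hqH : (q : ℝ) ≤ H := by rw [hqr]; exact hdH
  have hlq : Real.log q ≤ L := Real.log_le_log hqpos hqH
  obtain ⟨n, hnp, hn1, hn2, hnd⟩ := hM0 M (by omega) q hq0 (by linarith)
  have hF : Fact n.Prime := ⟨hnp⟩
  have hM1 : (1 : ℝ) ≤ M := by
    have : 1 ≤ M := by omega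
    exact_mod_cast this
  have hnM : M < n := by
    have h : (M : ℝ) < n := by linarith
    exact_mod_cast h
  have h4 : 1 ≤ n := hnp.one_lt.le
  have hn0 : (0 : ℝ) < n := by exact_mod_cast hnp.pos
  set α : ℚ := -(a : ℚ) / d with hα'
  set β : ℚ := -(b : ℚ) / d with hβ'
  have hα : QI q α := QI_div a d hd
  have hβ : QI q β := QI_div b d hd
  have hpd : padicNorm n (d : ℚ) = 1 := by
    rw [padicNorm.int_eq_one_iff]
    intro hdv
    exact hnd (Int.natCast_dvd.1 hdv)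
  have hpα : padicNorm n α ≤ 1 := by
    rw [hα', padicNorm.div, hpd, div_one, padicNorm.neg]
    exact padicNorm.of_int a
  have hpβ : padicNorm n β ≤ 1 := by
    rw [hβ', padicNorm.div, hpd, div_one, padicNorm.neg]
    exact padicNorm.of_int b
  have hne := hp0 n (by omega) hnp α β hpα hpβ
  have hd' : (d : ℝ) ≠ 0 := by exact_mod_cast hd
  have het : et α β = ((a : ℝ) + b * zr 2 + d * zr 3) / d := by
    unfold et
    rw [hα', hβ']
    push_cast
    field_simp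
    ring
  have heta : |et α β| ≤ Real.exp (-(5422 / 100 * n)) := by
    rw [het, abs_div]
    have e1 : |(a : ℝ) + b * zr 2 + d * zr 3| / |(d : ℝ)| ≤ |(a : ℝ) + b * zr 2 + d * zr 3| := by
      apply div_le_self (abs_nonneg _)
      rw [← hqr]; exact hq1
    refine e1.trans (hlt.le.trans ?_)
    rw [Real.rpow_def_of_pos hH0, ← Real.exp_add]
    apply Real.exp_le_exp.2
    rw [← hL]
    linarith
  have h1' := hNP n (by omega) q α β hα hβ hne
  have h2' := hNA n (by omega) α β heta hne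
  set z : ℚ := (q : ℚ) ^ (14 * n) * Pool.Agent.LZ.DD n α β with hz
  have hqq : (q : ℚ) ≠ 0 := by exact_mod_cast hq0
  have hz0 : z ≠ 0 := mul_ne_zero (pow_ne_zero _ hqq) hne
  have hS : ∀ p ∈ (Finset.range (14 * n + 1)).filter Nat.Prime, p.Prime := fun p hp =>
    (Finset.mem_filter.1 hp).2
  have hprod := Pool.Agent.H336R2.HD.A5_prod_formula z hz0 ((Finset.range (14 * n + 1)).filter Nat.Prime) hS
    (fun p => ((padicNorm p z : ℚ) : ℝ)) (fun p _ => le_rfl) (fun p hp hpS => by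
      apply P_large q α β hα hβ n h4 p hp
      by_contra hlt
      apply hpS
      rw [Finset.mem_filter, Finset.mem_range]
      exact ⟨by omega, hp⟩)
  have hpos : ∀ p ∈ (Finset.range (14 * n + 1)).filter Nat.Prime, ((padicNorm p z : ℚ) : ℝ) ≠ 0 :=
    fun p hp => (PM_z_pos p (hS p hp) z hz0).ne'
  have hDpos : 0 < |((Pool.Agent.LZ.DD n α β : ℚ) : ℝ)| := abs_pos.2 (by exact_mod_cast hne)
  have habs : |(z : ℝ)| = (q : ℝ) ^ (14 * n) * |((Pool.Agent.LZ.DD n α β : ℚ) : ℝ)| := by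
    rw [hz]
    push_cast
    rw [abs_mul, abs_of_pos (pow_pos hqpos _)]
  have hlog := Real.log_nonneg hprod
  rw [habs, Real.log_mul (mul_pos (pow_pos hqpos _) hDpos).ne' (Finset.prod_ne_zero_iff.2 hpos),
    Real.log_mul (pow_pos hqpos _).ne' hDpos.ne', Real.log_pow, Real.log_prod (fun p hp => hpos p hp)] at hlog
  push_cast at hlog
  -- the size of `q (1 + |β|)`
  have hqβ : (q : ℝ) * |(β : ℝ)| = |(b : ℝ)| := by
    rw [hqr, hβ', ← abs_mul]
    push_cast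
    rw [mul_div_cancel₀ _ hd', abs_neg]
  have hlogs : Real.log q + Real.log (1 + |(β : ℝ)|) ≤ L + 1 := by
    have hb0 : (0 : ℝ) < 1 + |(β : ℝ)| := by linarith [abs_nonneg (β : ℝ)]
    rw [← Real.log_mul hqpos.ne' hb0.ne']
    have b2 : Real.log ((q : ℝ) * (1 + |(β : ℝ)|)) ≤ Real.log (2 * H) := by
      apply Real.log_le_log (by positivity)
      rw [mul_add, hqβ, mul_one]
      linarith
    rw [Real.log_mul (by norm_num) hH0.ne'] at b2
    have b3 := Real.log_two_lt_d9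
    linarith
  have s1 : 7 * (n : ℝ) * (Real.log q + Real.log (1 + |(β : ℝ)|)) ≤ 7 * n * (L + 1) :=
    mul_le_mul_of_nonneg_left hlogs (by positivity)
  have s2 : 7 * (n : ℝ) * Real.log q ≤ 7 * n * L :=
    mul_le_mul_of_nonneg_left hlq (by positivity)
  have s4 : 14 * L + 7 - 4398 / 1000 * (n : ℝ) < 0 := by linarith
  have s5 : (n : ℝ) * (14 * L + 7 - 4398 / 1000 * n) < 0 := mul_neg_of_pos_of_neg hn0 s4
  have s6 : (n : ℝ) * (14 * L + 7 - 4398 / 1000 * n) = 7 * n * (L + 1) + 7 * n * L -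
      4398 / 1000 * (n : ℝ) ^ 2 := by ring
  have s7 : 14 * (n : ℝ) * Real.log q + 7 * n * Real.log (1 + |(β : ℝ)|) =
      7 * (n : ℝ) * (Real.log q + Real.log (1 + |(β : ℝ)|)) + 7 * n * Real.log q := by ring
  linarith

end

end Pool.Agent.TH120.HM
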